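import Pool.Agent.LPV.Stmts
import Pool.Agent.Helper39_LPV.TOV

/-!
# Squad LPV, row FSV (helper30): summability of the functions of a certificate
-/

set_option autoImplicit false

noncomputable section

open MeasureTheory Filter Topology
open scoped RealInnerProductSpace

namespace Pool.Agent.LPV.H30

open Pool.Agent.LPK Pool.Agent.LPV Pool.Agent.LPV.H39

/-- finite sums over a list of summable families -/
theorem sm_list {ι α : Type} (L : List α) (F : α → ι → ℝ) (h : ∀ d ∈ L, Summable (F d)) :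
    Summable (fun a => (L.map fun d => F d a).sum) :=
  (hs_list L F (fun d => ∑' a, F d a) fun d hd => (h d hd).hasSum).summable

/-- **FSV** -/
theorem fsv (dua : DuaStmt) (sum : SumStmt) (psg : PsgStmt) (wsq : WsqStmt) (wsl : WslStmt) :
    FsvStmt := by
  intro n κ D b b' h2 hev hD hz hz'
  have hD' := (dua n κ b b' hD).1
  obtain ⟨s1, s2, s3, s4⟩ := sum n κ κ b b b' b' hD hD
  obtain ⟨s1', s2', s3', s4'⟩ := sum n κ⁻¹ κ⁻¹ b' b' b b hD' hD'
  obtain ⟨_, m2, _, m4⟩ := sum n κ κ⁻¹ b b' b' b hD hD'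
  obtain ⟨_, m2', _, _⟩ := sum n κ⁻¹ κ b' b b b' hD' hD
  have hsw : Summable fun a : Z2 n => W (T3 n D.P) (pt b' a.2) (pt b a.1) :=
    (m2' (T3 n D.P)).prod_symm
  have hgs : Summable fun a : Fin n → ℤ => e3 D.g (‖pt b a‖ ^ 2) 0 0 * G (pt b a) := by
    have h := s1 D.g 0
    simp only [norm_zero, inner_zero_right, ne_eq, OfNat.ofNat_ne_zero, not_false_eq_true,
      zero_pow] at h
    exact h
  have hgs' : ∀ p : P3, Summable fun a : Fin n → ℤ =>
      e3 p (‖pt b' a‖ ^ 2) 0 0 * G (pt b' a) := by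
    intro p
    have h := s1' p 0
    simp only [norm_zero, inner_zero_right, ne_eq, OfNat.ofNat_ne_zero, not_false_eq_true,
      zero_pow] at h
    exact h
  have hh' : ∀ p : P3, Summable fun a : Fin n → ℤ =>
      e3 p (2 * ‖pt b' a‖ ^ 2) 0 0 * Real.exp (-‖pt b' a‖ ^ 2) := by
    intro p
    have h := sum_bd (hgs' (p2 p)) (fun a => G_abs (pt b' a))
    refine h.congr fun a => ?_
    rw [e3_p2, exp_G]
    ring
  refine ⟨?_, ?_, ?_, ?_, ?_⟩
  · rw [show gLL D b = _ from funext fun a => gLL_eq D b a]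
    exact ((((s2 D.P).add (sm_list D.ps _ fun d _ =>
      (s4 d.2.2 d.2.2).mul_left (d.1 : ℝ))).add (sm_list D.pl _ fun d hd =>
      sm_list d.2.2 _ fun e _ =>
        (psg n κ b b' h2 hD d.1 d.2.1 (hz d hd) e.2).1.mul_left (e.1 : ℝ))).add
      (sm_list D.w _ fun d _ =>
        (wsq n hev κ b b' hD d.2.1 d.2.2.1 d.2.2.2).2.2.1.mul_left (d.1 : ℝ))).add
      (sm_list D.wl _ fun d hd => sm_list d.2.2 _ fun e _ =>
        (wsl n κ b b' h2 hD d.1 d.2.1 (hz' d hd) e.2).1.mul_left (e.1 : ℝ))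
  · rw [show gSS D b' = _ from funext fun a => gSS_eq D b' a]
    exact s2' D.Q
  · rw [show gLS κ D b b' = _ from funext fun a => gLS_eq D κ b b' a]
    exact (hsw.mul_left (-κ⁻¹)).add ((m2 (T3 n D.Q)).mul_left (-κ))
  · rw [show gL D b = _ from funext fun a => gL_eq D b a]
    exact (hgs.add (sm_list D.ps _ fun d _ =>
        ((s3 d.2.2).mul_left (2 * (d.2.1 : ℝ))).mul_left (d.1 : ℝ))).add
      (sm_list D.w _ fun d _ =>
        ((wsq n hev κ b b' hD d.2.1 d.2.2.1 d.2.2.2).2.1.mul_left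
          (2 * (d.2.1 : ℝ))).mul_left (d.1 : ℝ))
  · rw [show gS κ D b' = _ from funext fun a => gS_eq D κ b' a]
    exact ((hgs' (T3 n D.g)).mul_left (-κ⁻¹)).add (sm_list D.w _ fun d _ =>
      ((hh' (T3 n (dbl d.2.2.2))).mul_left (2 * κ⁻¹ * (d.2.2.1 : ℝ))).mul_left (d.1 : ℝ))

end Pool.Agent.LPV.H30

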